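import Pool.Agent.H76.GU.Targets
import Pool.Agent.H77.GZ.ADJ

/-!
Row ADU of gu_modules (MP_52e316_nt): the dual eigenvalue of a cusp form of level `N` is bounded by
an eigenvalue.
-/

set_option autoImplicit false

namespace Pool.Agent.H17.GU

open MeasureTheory Pool.Agent.H34.GM Pool.Agent.H34.GZ Pool.Agent.H34.GU Pool.Agent.H76.GU
open Pool.Agent.H77.GZ (det_ne dec_of_tst cont_mt)

/-- sums of dominated terms are integrable -/
private theorem gen {Ω ι : Type} [MeasurableSpace Ω] (μ : Measure Ω) [Countable ι] (t : ι → Ω → ℂ)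
    (hmeas : ∀ i, AEStronglyMeasurable (t i) μ)
    (hfin : ∫⁻ ω, ∑' i, ‖t i ω‖ₑ ∂μ ≠ ⊤) :
    Integrable (fun ω => ∑' i, t i ω) μ := by
  have hPm : AEMeasurable (fun ω => ∑' i, ‖t i ω‖ₑ) μ :=
    AEMeasurable.tsum fun i => (hmeas i).enorm
  have hae : ∀ᵐ ω ∂μ, ∑' i, ‖t i ω‖ₑ < ⊤ := ae_lt_top' hPm hfin
  have hsum : ∀ᵐ ω ∂μ, Summable fun i => ‖t i ω‖ := by
    filter_upwards [hae] with ω h2
    exact tsum_enorm_ne_top_iff_summable_norm.mp h2.ne
  refine ⟨?_, ?_⟩
  · refine aestronglyMeasurable_of_tendsto_ae (Filter.atTop : Filter (Finset ι))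
      (f := fun A ω => ∑ i ∈ A, t i ω) ?_ ?_
    · intro A
      exact Finset.aestronglyMeasurable_fun_sum A fun i _ => hmeas i
    · filter_upwards [hsum] with ω h
      exact (Summable.of_norm h).hasSum
  · have h1 : ∫⁻ ω, ‖∑' i, t i ω‖ₑ ∂μ ≤ ∫⁻ ω, ∑' i, ‖t i ω‖ₑ ∂μ :=
      lintegral_mono fun ω => enorm_tsum_le_tsum_enorm
    exact lt_of_le_of_lt h1 hfin.lt_top

theorem pf_ADU (hEIU : T_EIU) (hEGC : T_EGC) (hAC1 : T_AC1) (hADQ : T_ADQ) (hADC : T_ADC)
    (hFTG : T_FTG) (hVLM : T_VLM) (hPSU : T_PSU) (hFR1 : T_FR1) (hFR2 : T_FR2)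
    (hMSR : T_MSR) : T_ADU := by
  classical
  intro m N _ T D hS F lam mu hF hn Φ hΦ r hr
  have hcZ : Countable (ZM m) := inferInstanceAs (Countable (Fin m → Fin m → ℤ))
  have hm1 := hS.one_le
  have hN2 := hS.two_le
  have hD := hS.dom
  have hN : (0 : ℝ) < N := by exact_mod_cast (by omega : 0 < N)
  obtain ⟨C, K, -, hvl⟩ := hVLM m hm1
  have hfin : hm m D < ⊤ := lt_of_le_of_lt (hvl D hD).1 ENNReal.ofReal_lt_top
  obtain ⟨BF, hBF⟩ := hF.bdd
  obtain ⟨κ, hκ⟩ : ∃ κ : ℝ, κ = kp m N := ⟨_, rfl⟩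
  have hκ0 : 0 < κ := by
    rw [hκ]
    unfold kp
    positivity
  obtain ⟨R, hR⟩ : ∃ R : ℝ, R = κ / r := ⟨_, rfl⟩
  have hR0 : 0 < R := by rw [hR]; exact div_pos hκ0 hr
  have hκR : kp m N / R = r := by
    rw [← hκ, hR]
    field_simp
  obtain ⟨hdec', hdec⟩ := hFTG m hm1 Φ hΦ
  obtain ⟨H, xv, hFrk⟩ := hFR1 m N hm1 hN2
  obtain ⟨-, -, hpn, -, hpars⟩ := hPSU m N hm1 hN2
  obtain ⟨-, hdm, -, -, hsig, -, hkkm, hΦm⟩ := hMSR.1 m
  have hdet : ∀ z ∈ D, (mt z).det ≠ 0 := fun z hz => det_ne hm1 (hD.shell z hz).1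
  have hfm : IsFiniteMeasure ((hm m).restrict D) := ⟨by rwa [Measure.restrict_apply_univ]⟩
  -- measurability and integrability
  have hsm : ∀ x, AEStronglyMeasurable (fun z : V m => F (mt z) x) ((hm m).restrict D) := by
    intro x
    have h1 : ContinuousOn (fun z : V m => F (mt z) x) D :=
      (hF.cont x).comp (cont_mt m).continuousOn (fun z hz => hdet z hz)
    exact h1.aestronglyMeasurable hD.meas
  have hint : ∀ x, Integrable (fun z : V m => ‖F (mt z) x‖ ^ 2) ((hm m).restrict D) := by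
    intro x
    refine Integrable.of_bound ((hsm x).norm.pow 2) (BF ^ 2) ?_
    rw [ae_restrict_iff' hD.meas]
    refine Filter.Eventually.of_forall fun z hz => ?_
    have h1 := hBF (mt z) x (hdet z hz)
    rw [Real.norm_of_nonneg (by positivity)]
    exact pow_le_pow_left₀ (norm_nonneg _) h1 2
  have hnF : nU D F = ∫ z in D, ∑ x, ‖F (mt z) x‖ ^ 2 ∂(hm m) := by
    unfold nU
    rw [integral_finsetSum _ fun x _ => hint x]
  have hnL : ∫⁻ z in D, ENNReal.ofReal (∑ x, ‖F (mt z) x‖ ^ 2) ∂(hm m) =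
      ENNReal.ofReal (nU D F) := by
    rw [hnF, ofReal_integral_eq_lintegral_ofReal (integrable_finsetSum _ fun x _ => hint x)
      (Filter.Eventually.of_forall fun z => Finset.sum_nonneg fun x _ => by positivity)]
  have A1i : ∀ z ∈ D, ∀ x : VN m N, Integrable (fun w : V m => ∑' α : ZM m,
      Φ (kk R (mt w) (cR α) (mt z)) * F (mt w) (ac N α x)) ((hm m).restrict D) := by
    intro z hz x
    refine gen _ (fun (α : ZM m) (w : V m) =>
      Φ (kk R (mt w) (cR α) (mt z)) * F (mt w) (ac N α x)) ?_ ?_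
    · intro α
      refine AEStronglyMeasurable.mul ?_ (hsm _)
      exact (((hΦm Φ hΦ.cont).comp (hkkm R (cR α))).comp
        (measurable_id.prodMk measurable_const)).aestronglyMeasurable
    · have h1 := hAC1 m N T D hS F lam mu hF Φ (dec_of_tst hΦ) (mt z) R x (hdet z hz) hR0
      simp only [ofReal_norm] at h1
      exact h1.ne
  -- the left side
  have hleft : ∫ z in D, ∫ w in D, ∑ x, (∑' α : ZM m, Φ (kk R (mt w) (cR α) (mt z)) *
      F (mt w) (ac N α x)) * (starRingEnd ℂ) (F (mt z) x) ∂(hm m) ∂(hm m) =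
      thF 1 Φ mu lam R * (nU D F : ℂ) := by
    have h1 : ∀ z ∈ D, ∫ w in D, ∑ x, (∑' α : ZM m, Φ (kk R (mt w) (cR α) (mt z)) *
        F (mt w) (ac N α x)) * (starRingEnd ℂ) (F (mt z) x) ∂(hm m) =
        thF 1 Φ mu lam R * ((∑ x, ‖F (mt z) x‖ ^ 2 : ℝ) : ℂ) := by
      intro z hz
      rw [integral_finsetSum _ fun x _ => (A1i z hz x).mul_const _]
      push_cast
      rw [Finset.mul_sum]
      refine Finset.sum_congr rfl fun x _ => ?_
      rw [integral_mul_const]
      have h2 := hEIU m N T D hS F lam mu hF.toEigU Φ hΦ.toTst (mt z) R x (hdet z hz) hR0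
      unfold opAu at h2
      rw [h2, mul_assoc, Complex.mul_conj, Complex.normSq_eq_norm_sq]
      push_cast
      rfl
    rw [setIntegral_congr_fun hD.meas h1, integral_const_mul, hnF]
    congr 1
    exact integral_complex_ofReal
  have hADC1 := hADC m N T D hS H xv hFrk F lam mu hF _ hdec' r hr
  have hmid : ∫ z in D, ∫ w in D, ∑ x, (∑' α : ZM m, Φ (kk R (mt w) (cR α) (mt z)) *
      F (mt w) (ac N α x)) * (starRingEnd ℂ) (F (mt z) x) ∂(hm m) ∂(hm m) =
      ((R ^ (m ^ 2) / (N : ℝ) ^ m : ℝ) : ℂ) *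
        ∫ h in D, ∑ v : VN m N, (if Pr v then (∑ y, psn N (dt v y) * F (mt h) y) *
          (starRingEnd ℂ) (opAu N (fun w => (starRingEnd ℂ) (ft Φ w)) r D F
            (cR (H v) * mt h) (xv v)) else 0) ∂(hm m) := by
    rw [← hADC1, ← integral_const_mul]
    refine setIntegral_congr_fun hD.meas fun z hz => ?_
    show _ = ((R ^ (m ^ 2) / (N : ℝ) ^ m : ℝ) : ℂ) * _
    rw [← integral_const_mul]
    refine setIntegral_congr_fun hD.meas fun w hw => ?_
    have h1 := hADQ m N hm1 hN2 Φ hΦ H xv hFrk (F (mt w)) (F (mt z)) (hF.supp (mt w))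
      (hF.supp (mt z)) (fun v hv => hF.prim v hv (mt w) (hdet w hw)) (mt z) (mt w) R
      (hdet z hz) (hdet w hw) hR0
    rw [hκR] at h1
    simp only [Complex.conj_conj]
    exact h1
  have hHdet : ∀ v : VN m N, Pr v → ∀ z ∈ D, (cR (H v) * mt z).det ≠ 0 := by
    intro v hv z hz
    have h1 : (cR (H v)).det = (((H v).det : ℤ) : ℝ) :=
      ((Int.castRingHom ℝ).map_det (H v)).symm
    have h2 := hFrk.det v hv
    have h3 : (H v).det ≠ 0 := by
      intro h0
      rw [h0, Int.natAbs_zero] at h2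
      have h4 : 0 < N ^ (m - 1) := Nat.pow_pos (by omega)
      omega
    rw [Matrix.det_mul, h1]
    exact mul_ne_zero (by exact_mod_cast h3) (hdet z hz)
  have hright : ∫ h in D, ∑ v : VN m N, (if Pr v then (∑ y, psn N (dt v y) * F (mt h) y) *
          (starRingEnd ℂ) (opAu N (fun w => (starRingEnd ℂ) (ft Φ w)) r D F
            (cR (H v) * mt h) (xv v)) else 0) ∂(hm m) =
      (starRingEnd ℂ) (thF 1 (fun a => (starRingEnd ℂ) (ft Φ a)) mu lam r) *
        ∫ h in D, ∑ v : VN m N, (if Pr v then (∑ y, psn N (dt v y) * F (mt h) y) *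
          (starRingEnd ℂ) (F (cR (H v) * mt h) (xv v)) else 0) ∂(hm m) := by
    rw [← integral_const_mul]
    refine setIntegral_congr_fun hD.meas fun w hw => ?_
    show _ = _ * _
    rw [Finset.mul_sum]
    refine Finset.sum_congr rfl fun v _ => ?_
    by_cases hv : Pr v
    · rw [if_pos hv, if_pos hv, hEGC m N T D hS F lam mu hF _ hdec' _ r (xv v)
        (hHdet v hv w hw) hr, map_mul]
      ring
    · rw [if_neg hv, if_neg hv, mul_zero]
  -- Cauchy-Schwarz
  obtain ⟨s, hs⟩ : ∃ s : ℝ, s = (N : ℝ) ^ ((m : ℝ) / 2) := ⟨_, rfl⟩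
  have hs0 : 0 < s := by
    rw [hs]
    positivity
  have hss : s * s = (N : ℝ) ^ m := by
    rw [hs, ← Real.rpow_add hN, add_halves, Real.rpow_natCast]
  have hnn : 0 ≤ nU D F := by
    rw [hnF]
    exact integral_nonneg fun z => Finset.sum_nonneg fun x _ => by positivity
  obtain ⟨P, hP⟩ : ∃ P : VN m N → V m → ℝ, P = fun x =>
      Set.piecewise {z : V m | (mt z).det ≠ 0} (fun z => ‖F (mt z) x‖) (fun _ => (0 : ℝ)) :=
    ⟨_, rfl⟩
  obtain ⟨f, hf⟩ : ∃ f : V m → VN m N → ENNReal, f = fun z x =>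
      ENNReal.ofReal ((P x z) ^ 2) := ⟨_, rfl⟩
  have hf1 : ∀ z x, (mt z).det ≠ 0 → f z x = ENNReal.ofReal (‖F (mt z) x‖ ^ 2) := by
    intro z x hz
    have h1 : P x z = ‖F (mt z) x‖ := by
      rw [hP]
      exact Set.piecewise_eq_of_mem _ _ _ hz
    rw [hf]
    show ENNReal.ofReal ((P x z) ^ 2) = _
    rw [h1]
  have hf0 : ∀ z x, (mt z).det = 0 → f z x = 0 := by
    intro z x hz
    have h1 : P x z = 0 := by
      rw [hP]
      exact Set.piecewise_eq_of_notMem _ _ _ (fun h => h hz)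
    rw [hf]
    show ENNReal.ofReal ((P x z) ^ 2) = _
    rw [h1]
    simp
  have hDm : MeasurableSet {z : V m | (mt z).det ≠ 0} := by
    have h1 := hdm (measurableSet_singleton (0 : ℝ))
    exact h1.compl
  have hfr := hFR2 m N hm1 hN2 H xv hFrk D hD f ?_ ?_ ?_
  rotate_left
  · intro x
    rw [hf]
    show Measurable fun z : V m => ENNReal.ofReal ((P x z) ^ 2)
    refine (Measurable.pow_const ?_ 2).ennreal_ofReal
    rw [hP]
    refine ContinuousOn.measurable_piecewise ?_ continuousOn_const hDm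
    exact ((hF.cont x).comp (cont_mt m).continuousOn (fun z hz => hz)).norm
  · intro γ hγ z x hz
    have hγ1 : (cR γ).det ≠ 0 := by
      have h1 : (cR γ).det = ((γ.det : ℤ) : ℝ) := ((Int.castRingHom ℝ).map_det γ).symm
      rw [h1]
      have h2 := (Matrix.isUnit_iff_isUnit_det γ).1 hγ
      exact_mod_cast h2.ne_zero
    have h2 : (mt (fun i j => (cR γ * mt z) i j : V m)).det ≠ 0 := by
      show (cR γ * mt z).det ≠ 0
      rw [Matrix.det_mul]
      exact mul_ne_zero hγ1 hz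
    rw [hf1 _ _ h2, hf1 _ _ hz]
    have h3 := hF.auto γ hγ (mt z) x hz
    show ENNReal.ofReal (‖F (cR γ * mt z) (ac N γ x)‖ ^ 2) = _
    rw [h3]
  · intro c hc z x
    have h2 : (mt (c • z)).det = c ^ m * (mt z).det := by
      show (c • mt z).det = _
      rw [Matrix.det_smul, Fintype.card_fin]
    by_cases hz : (mt z).det = 0
    · rw [hf0 _ _ hz, hf0 _ _ (by rw [h2, hz, mul_zero])]
    · rw [hf1 _ _ hz, hf1 _ _ (by rw [h2]; exact mul_ne_zero (pow_ne_zero _ hc.ne') hz)]
      show ENNReal.ofReal (‖F (c • mt z) x‖ ^ 2) = _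
      rw [hF.scal c hc (mt z) x hz]
  have hfr2 : ∫⁻ z in D, ∑ x : VN m N, (if Pr x then f z x else 0) ∂(hm m) =
      ENNReal.ofReal (nU D F) := by
    rw [← hnL]
    refine setLIntegral_congr_fun hD.meas fun z hz => ?_
    show ∑ x : VN m N, (if Pr x then f z x else 0) = _
    rw [ENNReal.ofReal_sum_of_nonneg fun x _ => by positivity]
    refine Finset.sum_congr rfl fun x _ => ?_
    by_cases hx : Pr x
    · rw [if_pos hx, hf1 z x (hdet z hz)]
    · rw [if_neg hx, hF.supp _ _ hx]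
      simp
  rw [hfr2] at hfr
  have hI : ‖∫ h in D, ∑ v : VN m N, (if Pr v then (∑ y, psn N (dt v y) * F (mt h) y) *
          (starRingEnd ℂ) (F (cR (H v) * mt h) (xv v)) else 0) ∂(hm m)‖ ≤ s * nU D F := by
    refine (norm_integral_le_lintegral_norm _).trans ?_
    refine ENNReal.toReal_le_of_le_ofReal (by positivity) ?_
    have hpt : ∀ z ∈ D, ENNReal.ofReal ‖∑ v : VN m N,
        (if Pr v then (∑ y, psn N (dt v y) * F (mt z) y) *
          (starRingEnd ℂ) (F (cR (H v) * mt z) (xv v)) else 0)‖ ≤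
        ENNReal.ofReal (s / 2) * ENNReal.ofReal (∑ x, ‖F (mt z) x‖ ^ 2) +
        ENNReal.ofReal (s / 2) * ∑ v : VN m N, (if Pr v then
          f (fun i j => (cR (H v) * mt z) i j) (xv v) else 0) := by
      intro z hz
      have e1 : ∑ v : VN m N, (if Pr v then
          f (fun i j => (cR (H v) * mt z) i j) (xv v) else 0) =
          ENNReal.ofReal (∑ v : VN m N, (if Pr v then ‖F (cR (H v) * mt z) (xv v)‖ ^ 2 else 0)) := by
        rw [ENNReal.ofReal_sum_of_nonneg]
        · refine Finset.sum_congr rfl fun v _ => ?_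
          by_cases hv : Pr v
          · rw [if_pos hv, if_pos hv]
            exact hf1 _ _ (hHdet v hv z hz)
          · rw [if_neg hv, if_neg hv, ENNReal.ofReal_zero]
        · intro v _
          split_ifs
          · positivity
          · exact le_refl _
      have hq1 : 0 ≤ ∑ x, ‖F (mt z) x‖ ^ 2 := Finset.sum_nonneg fun x _ => by positivity
      rw [e1, ← ENNReal.ofReal_mul (by positivity), ← ENNReal.ofReal_mul (by positivity),
        ← ENNReal.ofReal_add (by positivity) (mul_nonneg (by positivity)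
          (Finset.sum_nonneg fun v _ => by
            split_ifs
            · positivity
            · exact le_refl _))]
      refine ENNReal.ofReal_le_ofReal ?_
      refine (norm_sum_le _ _).trans ?_
      have e2 : ∀ v : VN m N, ‖(if Pr v then (∑ y, psn N (dt v y) * F (mt z) y) *
          (starRingEnd ℂ) (F (cR (H v) * mt z) (xv v)) else 0 : ℂ)‖ ≤
          (s⁻¹ * ‖∑ y, psn N (dt v y) * F (mt z) y‖ ^ 2 +
            s * (if Pr v then ‖F (cR (H v) * mt z) (xv v)‖ ^ 2 else 0)) / 2 := by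
        intro v
        by_cases hv : Pr v
        · rw [if_pos hv, if_pos hv, norm_mul, RCLike.norm_conj]
          have e3 : 0 ≤ s⁻¹ * (‖∑ y, psn N (dt v y) * F (mt z) y‖ -
              s * ‖F (cR (H v) * mt z) (xv v)‖) ^ 2 := by positivity
          have e4 : s⁻¹ * (‖∑ y, psn N (dt v y) * F (mt z) y‖ -
              s * ‖F (cR (H v) * mt z) (xv v)‖) ^ 2 =
              s⁻¹ * ‖∑ y, psn N (dt v y) * F (mt z) y‖ ^ 2 +
                s * ‖F (cR (H v) * mt z) (xv v)‖ ^ 2 -
              2 * (‖∑ y, psn N (dt v y) * F (mt z) y‖ * ‖F (cR (H v) * mt z) (xv v)‖) := by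
            field_simp
            ring
          rw [e4] at e3
          linarith
        · rw [if_neg hv, if_neg hv, norm_zero, mul_zero, add_zero]
          positivity
      refine (Finset.sum_le_sum fun v _ => e2 v).trans (le_of_eq ?_)
      rw [← Finset.sum_div, Finset.sum_add_distrib, ← Finset.mul_sum, ← Finset.mul_sum,
        hpars (F (mt z)), ← hss]
      field_simp
    refine (setLIntegral_mono' hD.meas hpt).trans ?_
    rw [lintegral_add_left', lintegral_const_mul', lintegral_const_mul', hnL]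
    · refine (add_le_add le_rfl (mul_le_mul' le_rfl hfr)).trans (le_of_eq ?_)
      rw [← ENNReal.ofReal_mul (by positivity), ← ENNReal.ofReal_add (by positivity)
        (by positivity)]
      congr 1
      ring
    · exact ENNReal.ofReal_ne_top
    · exact ENNReal.ofReal_ne_top
    · refine AEMeasurable.const_mul ?_ _
      exact (integrable_finsetSum _ fun x _ => hint x).aestronglyMeasurable.aemeasurable.ennreal_ofReal
  -- conclusion
  have hn0 : 0 < nU D F := lt_of_le_of_ne hnn (Ne.symm hn)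
  have hmain := hleft.symm.trans (hmid.trans (by rw [hright]))
  have hnorm := congrArg norm hmain
  have hc0 : 0 ≤ R ^ (m ^ 2) / (N : ℝ) ^ m := by positivity
  rw [norm_mul, norm_mul, norm_mul, RCLike.norm_conj, Complex.norm_real, Complex.norm_real,
    Real.norm_of_nonneg hn0.le, Real.norm_of_nonneg hc0] at hnorm
  have hle : ‖thF 1 Φ mu lam R‖ ≤ R ^ (m ^ 2) / s *
      ‖thF 1 (fun a => (starRingEnd ℂ) (ft Φ a)) mu lam r‖ := by
    refine le_of_mul_le_mul_right ?_ hn0
    rw [hnorm]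
    refine (mul_le_mul_of_nonneg_left (mul_le_mul_of_nonneg_left hI (norm_nonneg _)) hc0).trans
      (le_of_eq ?_)
    rw [← hss]
    field_simp
  have hκs : κ ^ ((m : ℝ) ^ 2 / 2) = s := by
    rw [hκ, hs]
    unfold kp
    rw [← Real.rpow_mul hN.le]
    congr 1
    have : (m : ℝ) ≠ 0 := by
      have : (0 : ℝ) < m := by exact_mod_cast hm1
      exact this.ne'
    field_simp
  have hc1 : 0 ≤ κ ^ ((m : ℝ) ^ 2 / 2) * R ^ (-((m : ℝ) ^ 2)) := by positivity
  unfold thDu
  rw [← hκ, ← hR, norm_mul, Complex.norm_real, Real.norm_of_nonneg hc1]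
  refine (mul_le_mul_of_nonneg_left hle hc1).trans (le_of_eq ?_)
  have e2 : R ^ (-((m : ℝ) ^ 2)) * R ^ (m ^ 2) = 1 := by
    rw [← Real.rpow_natCast R (m ^ 2), ← Real.rpow_add hR0]
    push_cast
    rw [neg_add_cancel, Real.rpow_zero]
  rw [hκs]
  calc s * R ^ (-((m : ℝ) ^ 2)) * (R ^ (m ^ 2) / s *
          ‖thF 1 (fun a => (starRingEnd ℂ) (ft Φ a)) mu lam r‖)
      = (s * s⁻¹) * (R ^ (-((m : ℝ) ^ 2)) * R ^ (m ^ 2)) *
          ‖thF 1 (fun a => (starRingEnd ℂ) (ft Φ a)) mu lam r‖ := by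
        rw [div_eq_mul_inv]
        ring
    _ = _ := by rw [e2, mul_inv_cancel₀ hs0.ne', one_mul, one_mul]

end Pool.Agent.H17.GU
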