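import Pool.Agent.H76.GU.Targets
import Pool.Agent.H34.GM.HAC

/-!
Row AVG of gu_modules (MP_52e316_nt): the average over the unipotent group may be taken first.
-/

set_option autoImplicit false

namespace Pool.Agent.H17.GU

open MeasureTheory Pool.Agent.H34.GM Pool.Agent.H34.GZ Pool.Agent.H34.GU Pool.Agent.H76.GU

variable {m : ℕ}

/-! ### algebra -/

private lemma nk_mul (k : ℕ) (u v : V m) : nk k u * nk k v = 0 := by
  ext i j
  rw [Matrix.mul_apply]
  simp only [nk, Matrix.of_apply, Matrix.zero_apply]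
  refine Finset.sum_eq_zero fun l _ => ?_
  by_cases h1 : (l : ℕ) < k ∧ k ≤ (i : ℕ)
  · have h2 : ¬ ((j : ℕ) < k ∧ k ≤ (l : ℕ)) := fun h => by omega
    rw [if_neg h2, mul_zero]
  · rw [if_neg h1, zero_mul]

private lemma nk_add (k : ℕ) (u v : V m) : nk k (u + v) = nk k u + nk k v := by
  ext i j
  simp only [nk, Matrix.of_apply, Matrix.add_apply, Pi.add_apply]
  split_ifs
  · rfl
  · rw [add_zero]

private lemma nk_zero (k : ℕ) : nk k (0 : V m) = 0 := by
  ext i j
  simp only [nk, Matrix.of_apply, Pi.zero_apply, Matrix.zero_apply, ite_self]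

private lemma uu_mul (k : ℕ) (u v : V m) : (1 + nk k u) * (1 + nk k v) = 1 + nk k (u + v) := by
  rw [add_mul, one_mul, mul_add, mul_one, nk_mul, nk_add, add_zero]
  abel

private lemma uu_comm (k : ℕ) (u v : V m) :
    (1 + nk k u) * (1 + nk k v) = (1 + nk k v) * (1 + nk k u) := by
  rw [uu_mul, uu_mul, add_comm u v]

private lemma uu_inv (k : ℕ) (u : V m) : (1 + nk k (-u)) * (1 + nk k u) = 1 := by
  rw [uu_mul, neg_add_cancel, nk_zero, add_zero]

private lemma uu_det (k : ℕ) (u : V m) : (1 + nk k u).det = 1 := by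
  rw [Matrix.det_of_isLowerTriangular]
  · refine Finset.prod_eq_one fun i _ => ?_
    simp only [nk, Matrix.of_apply, Matrix.add_apply, Matrix.one_apply_eq]
    rw [if_neg (fun h => by omega), add_zero]
  · intro i j hij
    have h0 : (i : ℕ) < j := hij
    simp only [nk, Matrix.of_apply, Matrix.add_apply]
    rw [if_neg (fun h => by omega), add_zero, Matrix.one_apply_ne (fun h => by
      rw [h] at h0
      exact lt_irrefl _ h0)]

private lemma cR_uu {k : ℕ} {n : ZM m} (h : InN k n) :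
    cR n = 1 + nk k (fun i j => (n i j : ℝ)) := by
  ext i j
  simp only [cR, nk, Matrix.of_apply, Matrix.add_apply, Matrix.map_apply]
  by_cases h1 : (j : ℕ) < k ∧ k ≤ (i : ℕ)
  · rw [if_pos h1, Matrix.one_apply_ne (fun h => by
      rw [h] at h1
      omega), zero_add]
  · rw [if_neg h1, add_zero, h i j h1]
    by_cases h2 : i = j
    · rw [h2, Matrix.one_apply_eq, Matrix.one_apply_eq, Int.cast_one]
    · rw [Matrix.one_apply_ne h2, Matrix.one_apply_ne h2, Int.cast_zero]

/-- the unipotent group -/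
private abbrev NN (m k : ℕ) : Type := {n : ZM m // InN k n}

/-- inversion -/
private def iv {k : ℕ} (n : NN m k) : NN m k :=
  ⟨1 + 1 - n.1, by
    intro i j h
    rw [Matrix.sub_apply, Matrix.add_apply, n.2 i j h]
    ring⟩

private lemma iv_iv {k : ℕ} (n : NN m k) : iv (iv n) = n := by
  apply Subtype.ext
  show (1 + 1 - (1 + 1 - n.1) : ZM m) = n.1
  abel

private lemma cR_iv {k : ℕ} (n : NN m k) : cR (iv n).1 * cR n.1 = 1 := by
  have h1 : cR (iv n).1 = 1 + nk k (-(fun i j => (n.1 i j : ℝ)) : V m) := by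
    rw [cR_uu (iv n).2]
    congr 1
    ext i j
    simp only [nk, Matrix.of_apply]
    by_cases h1 : (j : ℕ) < k ∧ k ≤ (i : ℕ)
    · rw [if_pos h1, if_pos h1]
      show (((1 + 1 - n.1 : ZM m) i j : ℤ) : ℝ) = -(n.1 i j : ℝ)
      rw [Matrix.sub_apply, Matrix.add_apply, Matrix.one_apply_ne (fun h => by
        rw [h] at h1
        omega)]
      push_cast
      ring
    · rw [if_neg h1, if_neg h1]
  rw [h1, cR_uu n.2, uu_inv]

private noncomputable def ivE {k : ℕ} : NN m k ≃ NN m k where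
  toFun := iv
  invFun := iv
  left_inv := iv_iv
  right_inv := iv_iv

/-! ### the action -/

private lemma lm_eq (w : Mat m) : lm w = hac_lm w := rfl

private lemma mt_lm (w : Mat m) (z : V m) : mt (lm w z) = w * mt z := by
  ext i j
  rfl

private lemma lm_lm (a c : Mat m) (z : V m) : lm a (lm c z) = lm (a * c) z := by
  funext i j
  show (a * mt (lm c z)) i j = (a * c * mt z) i j
  rw [mt_lm, Matrix.mul_assoc]

private lemma lm_one (z : V m) : lm (1 : Mat m) z = z := by
  funext i j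
  show ((1 : Mat m) * mt z) i j = z i j
  rw [Matrix.one_mul]
  rfl

private lemma lm_meas (w : Mat m) : Measurable (lm w) := hac_meas_lm w

private lemma det_sh (hm1 : 1 ≤ m) {z : V m} (hz : z ∈ Shell m) : (mt z).det ≠ 0 := by
  intro h0
  have h1 := hz.1
  unfold aN at h1
  rw [h0, abs_zero, Real.zero_rpow (by positivity)] at h1
  linarith

private lemma sh_lm {w : Mat m} (hw : w.det = 1) (z : V m) : lm w z ∈ Shell m ↔ z ∈ Shell m := by
  have h : aN (mt (lm w z)) = aN (mt z) := by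
    unfold aN
    rw [mt_lm, Matrix.det_mul, hw, one_mul]
  constructor
  · intro hz
    have h1 := hz.1
    have h2 := hz.2
    rw [h] at h1 h2
    exact ⟨h1, h2⟩
  · intro hz
    refine ⟨?_, ?_⟩
    · rw [h]
      exact hz.1
    · rw [h]
      exact hz.2

private lemma sh_meas : MeasurableSet (Shell m) := by
  have h : Measurable fun z : V m => aN (mt z) := by
    unfold aN
    exact (hac_cont_det.measurable.abs).pow_const _
  exact (measurableSet_le measurable_const h).inter (measurableSet_lt h measurable_const)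

/-- left multiplication by a matrix of determinant one preserves the measure of the shell -/
private lemma mp_sh (hHAR : T_HAR) (hm1 : 1 ≤ m) {w : Mat m} (hw : w.det = 1) :
    MeasurePreserving (hac_le w (by rw [hw]; exact one_ne_zero)) ((hm m).restrict (Shell m))
      ((hm m).restrict (Shell m)) := by
  have hw0 : w.det ≠ 0 := by
    rw [hw]
    exact one_ne_zero
  have h1 : MeasurePreserving (hac_le w hw0) (hm m) (hm m) :=
    hac_mp_of _ fun g hg => ((hHAR m hm1).1 w hw0 g hg).1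
  have h2 : (hac_le w hw0) ⁻¹' (Shell m) = Shell m := by
    ext z
    exact sh_lm hw z
  have h3 := h1.restrict_preimage (sh_meas (m := m))
  rw [h2] at h3
  exact h3

private lemma lint_lm (hHAR : T_HAR) (hm1 : 1 ≤ m) {w : Mat m} (hw : w.det = 1) (f : V m → ENNReal)
    (hf : Measurable f) :
    ∫⁻ z in Shell m, f (lm w z) ∂(hm m) = ∫⁻ z in Shell m, f z ∂(hm m) :=
  (mp_sh hHAR hm1 hw).lintegral_comp hf

private lemma int_lm (hHAR : T_HAR) (hm1 : 1 ≤ m) {w : Mat m} (hw : w.det = 1) (f : V m → ℂ) :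
    ∫ z in Shell m, f (lm w z) ∂(hm m) = ∫ z in Shell m, f z ∂(hm m) :=
  (mp_sh hHAR hm1 hw).integral_comp' f

/-! ### change of the weight -/

private def Wt (k : ℕ) (κ : V m → ENNReal) : Prop := Measurable κ ∧ (∀ z, κ z ≤ 1) ∧
  ∀ z : V m, (mt z).det ≠ 0 → ∑' n : NN m k, κ (lm (cR n.1) z) = 1

private lemma swap0 (hHAR : T_HAR) (hm1 : 1 ≤ m) (k : ℕ) (κ κ' : V m → ENNReal)
    (h : Wt k κ) (h' : Wt k κ') (G : V m → ENNReal) (hG : Measurable G)
    (hGi : ∀ n : ZM m, InN k n → ∀ z : V m, (mt z).det ≠ 0 → G (lm (cR n) z) = G z) :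
    ∫⁻ z in Shell m, κ z * G z ∂(hm m) = ∫⁻ z in Shell m, κ' z * G z ∂(hm m) := by
  have hcZ : Countable (ZM m) := inferInstanceAs (Countable (Fin m → Fin m → ℤ))
  have hcnt : Countable (NN m k) := inferInstance
  have e1 : ∫⁻ z in Shell m, κ z * G z ∂(hm m) =
      ∫⁻ z in Shell m, ∑' n : NN m k, κ z * κ' (lm (cR n.1) z) * G z ∂(hm m) := by
    refine setLIntegral_congr_fun sh_meas fun z hz => ?_
    show κ z * G z = ∑' n : NN m k, κ z * κ' (lm (cR n.1) z) * G z
    rw [ENNReal.tsum_mul_right, ENNReal.tsum_mul_left, h'.2.2 z (det_sh hm1 hz), mul_one]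
  have e2 : ∫⁻ z in Shell m, ∑' n : NN m k, κ z * κ' (lm (cR n.1) z) * G z ∂(hm m) =
      ∑' n : NN m k, ∫⁻ z in Shell m, κ z * κ' (lm (cR n.1) z) * G z ∂(hm m) :=
    lintegral_tsum fun n => ((h.1.mul (h'.1.comp (lm_meas _))).mul hG).aemeasurable
  have e3 : ∀ n : NN m k, ∫⁻ z in Shell m, κ z * κ' (lm (cR n.1) z) * G z ∂(hm m) =
      ∫⁻ z in Shell m, κ (lm (cR (iv n).1) z) * κ' z * G z ∂(hm m) := by
    intro n
    have hd : (cR n.1).det = 1 := by
      rw [cR_uu n.2, uu_det]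
    rw [← lint_lm hHAR hm1 hd (fun z => κ (lm (cR (iv n).1) z) * κ' z * G z)
      (((h.1.comp (lm_meas _)).mul h'.1).mul hG)]
    refine setLIntegral_congr_fun sh_meas fun z hz => ?_
    show κ z * κ' (lm (cR n.1) z) * G z = κ (lm (cR (iv n).1) (lm (cR n.1) z)) *
      κ' (lm (cR n.1) z) * G (lm (cR n.1) z)
    rw [lm_lm, cR_iv, lm_one, hGi n.1 n.2 z (det_sh hm1 hz)]
  have e4 : ∑' n : NN m k, ∫⁻ z in Shell m, κ (lm (cR (iv n).1) z) * κ' z * G z ∂(hm m) =
      ∫⁻ z in Shell m, ∑' n : NN m k, κ (lm (cR (iv n).1) z) * κ' z * G z ∂(hm m) :=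
    (lintegral_tsum fun n => (((h.1.comp (lm_meas _)).mul h'.1).mul hG).aemeasurable).symm
  rw [e1, e2, tsum_congr e3, e4]
  refine setLIntegral_congr_fun sh_meas fun z hz => ?_
  show ∑' n : NN m k, κ (lm (cR (iv n).1) z) * κ' z * G z = κ' z * G z
  have e5 : ∑' n : NN m k, κ (lm (cR (iv n).1) z) = ∑' n : NN m k, κ (lm (cR n.1) z) :=
    ivE.tsum_eq (fun n : NN m k => κ (lm (cR n.1) z))
  rw [ENNReal.tsum_mul_right, ENNReal.tsum_mul_right, e5, h.2.2 z (det_sh hm1 hz), one_mul]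

private lemma nrm_eq {κ : V m → ENNReal} (h : ∀ z, κ z ≤ 1) (H : V m → ℂ) (z : V m) :
    ‖((κ z).toReal : ℂ) * H z‖ₑ = κ z * ‖H z‖ₑ := by
  rw [enorm_mul]
  congr 1
  rw [← ofReal_norm, Complex.norm_real, Real.norm_eq_abs, abs_of_nonneg ENNReal.toReal_nonneg,
    ENNReal.ofReal_toReal (ne_top_of_le_ne_top ENNReal.one_ne_top (h z))]

private lemma cR_mul (α β : ZM m) : cR (α * β) = cR α * cR β :=
  map_mul (Int.castRingHom ℝ).mapMatrix α β

/-- real functions -/
private lemma swapR (hHAR : T_HAR) (hm1 : 1 ≤ m) (k : ℕ) (κ κ' : V m → ENNReal)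
    (h : Wt k κ) (h' : Wt k κ') (G : V m → ℝ) (hG : Measurable G)
    (hGi : ∀ n : ZM m, InN k n → ∀ z : V m, (mt z).det ≠ 0 → G (lm (cR n) z) = G z)
    (hI : IntegrableOn (fun z => (κ z).toReal * G z) (Shell m) (hm m))
    (hI' : IntegrableOn (fun z => (κ' z).toReal * G z) (Shell m) (hm m)) :
    ∫ z in Shell m, (κ z).toReal * G z ∂(hm m) = ∫ z in Shell m, (κ' z).toReal * G z ∂(hm m) := by
  have key : ∀ (κ : V m → ENNReal), Wt k κ → ∀ G : V m → ℝ,
      ∀ z : V m, ENNReal.ofReal ((κ z).toReal * G z) = κ z * ENNReal.ofReal (G z) := by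
    intro κ h G z
    rw [ENNReal.ofReal_mul ENNReal.toReal_nonneg,
      ENNReal.ofReal_toReal (ne_top_of_le_ne_top ENNReal.one_ne_top (h.2.1 z))]
  rw [integral_eq_lintegral_pos_part_sub_lintegral_neg_part hI,
    integral_eq_lintegral_pos_part_sub_lintegral_neg_part hI']
  have a1 : ∫⁻ z in Shell m, ENNReal.ofReal ((κ z).toReal * G z) ∂(hm m) =
      ∫⁻ z in Shell m, ENNReal.ofReal ((κ' z).toReal * G z) ∂(hm m) := by
    simp only [key κ h G, key κ' h' G]
    exact swap0 hHAR hm1 k κ κ' h h' _ hG.ennreal_ofReal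
      (fun n hn z hz => by rw [hGi n hn z hz])
  have a2 : ∫⁻ z in Shell m, ENNReal.ofReal (-((κ z).toReal * G z)) ∂(hm m) =
      ∫⁻ z in Shell m, ENNReal.ofReal (-((κ' z).toReal * G z)) ∂(hm m) := by
    simp only [← mul_neg]
    have b1 := key κ h (fun z => -G z)
    have b2 := key κ' h' (fun z => -G z)
    simp only [b1, b2]
    exact swap0 hHAR hm1 k κ κ' h h' _ hG.neg.ennreal_ofReal
      (fun n hn z hz => by rw [hGi n hn z hz])
  rw [a1, a2]

private lemma swapC (hHAR : T_HAR) (hm1 : 1 ≤ m) (k : ℕ) (κ κ' : V m → ENNReal)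
    (h : Wt k κ) (h' : Wt k κ') (H : V m → ℂ) (hH : Measurable H)
    (hHi : ∀ n : ZM m, InN k n → ∀ z : V m, (mt z).det ≠ 0 → H (lm (cR n) z) = H z)
    (hI : IntegrableOn (fun z => ((κ z).toReal : ℂ) * H z) (Shell m) (hm m)) :
    IntegrableOn (fun z => ((κ' z).toReal : ℂ) * H z) (Shell m) (hm m) ∧
    ∫ z in Shell m, ((κ z).toReal : ℂ) * H z ∂(hm m) =
      ∫ z in Shell m, ((κ' z).toReal : ℂ) * H z ∂(hm m) := by
  have hI' : IntegrableOn (fun z => ((κ' z).toReal : ℂ) * H z) (Shell m) (hm m) := by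
    refine ⟨((Complex.measurable_ofReal.comp h'.1.ennreal_toReal).mul hH).aestronglyMeasurable, ?_⟩
    have h1 : ∫⁻ z in Shell m, ‖((κ z).toReal : ℂ) * H z‖ₑ ∂(hm m) < ⊤ := hI.2
    show ∫⁻ z in Shell m, ‖((κ' z).toReal : ℂ) * H z‖ₑ ∂(hm m) < ⊤
    simp only [nrm_eq h.2.1] at h1
    simp only [nrm_eq h'.2.1]
    rw [← swap0 hHAR hm1 k κ κ' h h' (fun z => ‖H z‖ₑ) hH.enorm
      (fun n hn z hz => by rw [hHi n hn z hz])]
    exact h1
  refine ⟨hI', ?_⟩
  have re1 : ∀ (κ : V m → ENNReal) (z : V m),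
      (((κ z).toReal : ℂ) * H z).re = (κ z).toReal * (H z).re := fun κ z =>
    Complex.re_ofReal_mul _ _
  have im1 : ∀ (κ : V m → ENNReal) (z : V m),
      (((κ z).toReal : ℂ) * H z).im = (κ z).toReal * (H z).im := fun κ z =>
    Complex.im_ofReal_mul _ _
  have r1 := hI.re
  have r2 := hI'.re
  have i1 := hI.im
  have i2 := hI'.im
  rw [← integral_re_add_im hI, ← integral_re_add_im hI']
  simp only [RCLike.re_eq_complex_re, RCLike.im_eq_complex_im, re1, im1] at r1 r2 i1 i2 ⊢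
  rw [swapR hHAR hm1 k κ κ' h h' (fun z => (H z).re) (Complex.measurable_re.comp hH)
    (fun n hn z hz => by rw [hHi n hn z hz]) r1 r2,
    swapR hHAR hm1 k κ κ' h h' (fun z => (H z).im) (Complex.measurable_im.comp hH)
    (fun n hn z hz => by rw [hHi n hn z hz]) i1 i2]

private lemma vol_cube : (volume : Measure (V m)) (Set.Icc (0 : V m) 1) = 1 := by
  rw [← Set.pi_univ_Icc, volume_pi_pi]
  refine Finset.prod_eq_one fun i _ => ?_
  rw [Real.volume_Icc_pi]
  refine Finset.prod_eq_one fun j _ => ?_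
  simp

theorem pf_AVG : T_HAR → T_AVG := by
  intro hHAR m k hm1 _ κ hκm hκ1 hκs H hH hHi hI hz0
  have hW : Wt k κ := ⟨hκm, hκ1, hκs⟩
  -- the translated weights
  have hWu : ∀ u : V m, Wt k (fun z => κ (lm (1 + nk k (-u)) z)) := by
    intro u
    refine ⟨hκm.comp (lm_meas _), fun z => hκ1 _, fun z hz => ?_⟩
    have h1 : ∀ n : NN m k, κ (lm (1 + nk k (-u)) (lm (cR n.1) z)) =
        κ (lm (cR n.1) (lm (1 + nk k (-u)) z)) := by
      intro n
      rw [lm_lm, lm_lm, cR_uu n.2, uu_comm]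
    show ∑' n : NN m k, κ (lm (1 + nk k (-u)) (lm (cR n.1) z)) = 1
    rw [tsum_congr h1]
    refine hκs _ ?_
    rw [mt_lm, Matrix.det_mul, uu_det, one_mul]
    exact hz
  have hsub : ∀ u : V m, ∫ z in Shell m, ((κ z).toReal : ℂ) * H (lm (1 + nk k u) z) ∂(hm m) =
      ∫ z in Shell m, ((κ z).toReal : ℂ) * H z ∂(hm m) := by
    intro u
    rw [(swapC hHAR hm1 k κ _ hW (hWu u) H hH hHi hI).2,
      ← int_lm hHAR hm1 (uu_det k u) (fun z => ((κ (lm (1 + nk k (-u)) z)).toReal : ℂ) * H z)]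
    congr 1
    funext z
    rw [lm_lm, uu_inv, lm_one]
  have hjm : Measurable fun p : V m × V m => lm (1 + nk k p.1) p.2 := by
    have hc : Continuous fun p : V m × V m => lm (1 + nk k p.1) p.2 := by
      unfold lm
      refine continuous_pi fun i => continuous_pi fun j => ?_
      simp only [Matrix.mul_apply, Matrix.add_apply, nk, Matrix.of_apply, Pool.Agent.H34.GM.mt]
      refine continuous_finsetSum _ fun l _ => ?_
      split_ifs
      · fun_prop
      · fun_prop
    exact hc.measurable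
  have hsf : SFinite (hm m) := by
    unfold hm
    infer_instance
  have hPI : Integrable (Function.uncurry fun (u z : V m) =>
      ((κ z).toReal : ℂ) * H (lm (1 + nk k u) z))
      (((volume : Measure (V m)).restrict (Set.Icc (0 : V m) 1)).prod
        ((hm m).restrict (Shell m))) := by
    have hmm : Measurable (Function.uncurry fun (u z : V m) =>
        ((κ z).toReal : ℂ) * H (lm (1 + nk k u) z)) :=
      ((Complex.measurable_ofReal.comp hκm.ennreal_toReal).comp measurable_snd).mul (hH.comp hjm)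
    refine ⟨hmm.aestronglyMeasurable, ?_⟩
    show ∫⁻ p, ‖Function.uncurry (fun (u z : V m) =>
      ((κ z).toReal : ℂ) * H (lm (1 + nk k u) z)) p‖ₑ
      ∂(((volume : Measure (V m)).restrict (Set.Icc (0 : V m) 1)).prod
        ((hm m).restrict (Shell m))) < ⊤
    rw [lintegral_prod _ hmm.enorm.aemeasurable]
    have h1 : ∀ u : V m, ∫⁻ z in Shell m, ‖Function.uncurry (fun (u z : V m) =>
        ((κ z).toReal : ℂ) * H (lm (1 + nk k u) z)) (u, z)‖ₑ ∂(hm m) =
        ∫⁻ z in Shell m, κ z * ‖H z‖ₑ ∂(hm m) := by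
      intro u
      rw [swap0 hHAR hm1 k κ _ hW (hWu u) (fun z => ‖H z‖ₑ) hH.enorm
        (fun n hn z hz => by rw [hHi n hn z hz]),
        ← lint_lm hHAR hm1 (uu_det k u) (fun z => κ (lm (1 + nk k (-u)) z) * ‖H z‖ₑ)
          ((hκm.comp (lm_meas _)).mul hH.enorm)]
      refine lintegral_congr fun z => ?_
      show ‖((κ z).toReal : ℂ) * H (lm (1 + nk k u) z)‖ₑ =
        κ (lm (1 + nk k (-u)) (lm (1 + nk k u) z)) * ‖H (lm (1 + nk k u) z)‖ₑ
      rw [lm_lm, uu_inv, lm_one, nrm_eq hκ1 (fun z => H (lm (1 + nk k u) z))]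
    simp only [h1]
    rw [lintegral_const, Measure.restrict_apply_univ, vol_cube, mul_one]
    have h2 : ∫⁻ z in Shell m, ‖((κ z).toReal : ℂ) * H z‖ₑ ∂(hm m) < ⊤ := hI.2
    simp only [nrm_eq hκ1] at h2
    exact h2
  have hF := integral_integral_swap hPI
  have hL : ∫ u in Set.Icc (0 : V m) 1, ∫ z in Shell m,
      ((κ z).toReal : ℂ) * H (lm (1 + nk k u) z) ∂(hm m) =
      ∫ z in Shell m, ((κ z).toReal : ℂ) * H z ∂(hm m) := by
    simp only [hsub]
    rw [setIntegral_const, measureReal_def, vol_cube, ENNReal.toReal_one, one_smul]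
  rw [← hL, hF]
  refine setIntegral_eq_zero_of_forall_eq_zero fun z hz => ?_
  show ∫ u in Set.Icc (0 : V m) 1, ((κ z).toReal : ℂ) * H (lm (1 + nk k u) z) = 0
  rw [integral_const_mul, hz0 z (det_sh hm1 hz), mul_zero]

end Pool.Agent.H17.GU
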